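import Mathlib
import Pool.Agent.R165.Qd.Grp

/-!
# No infinite tower of abelian extensions of finite connected quandles (MP_caf75b_al, Q1)

Every tower `Q n → … → Q 1 → Q 0` of finite connected quandles in which each `Q (i+1)` is an abelian
extension of `Q i` by a nontrivial group has bounded height: `|Q n|`, and therefore `2 ^ n`, is
bounded in terms of the order of the inner automorphism group of `Q 0`.
-/

set_option autoImplicit false

namespace Pool.Agent.Results.MP_caf75b_al.NoInfiniteTower

open Subgroup commutatorElement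

universe u

section defs

/-- The quandle axioms for a binary operation `x * y = op x y`. -/
structure IsQuandle {X : Type u} (op : X → X → X) : Prop where
  idem : ∀ a, op a a = a
  bij : ∀ b c, ∃! a, op a b = c
  dist : ∀ a b c, op (op a b) c = op (op a c) (op b c)

/-- The inner automorphism group: the group of permutations generated by the right translations
`x ↦ x * b`. -/
def Inn {X : Type u} (op : X → X → X) : Subgroup (Equiv.Perm X) :=
  Subgroup.closure {g | ∃ b, ∀ x, g x = op x b}

/-- A quandle is connected if it is nonempty and `Inn` acts transitively. -/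
def IsConnected {X : Type u} (op : X → X → X) : Prop :=
  Nonempty X ∧ ∀ x y, ∃ g ∈ Inn op, g x = y

/-- A quandle 2-cocycle with values in the abelian group `A`. -/
def IsCocycle {X A : Type u} [AddCommGroup A] (op : X → X → X) (φ : X → X → A) : Prop :=
  (∀ x y z, φ x y - φ x z + φ (op x y) z - φ (op x z) (op y z) = 0) ∧ ∀ x, φ x x = 0

/-- The operation of the abelian extension `E(X, A, φ)` on `X × A`. -/
def extOp {X A : Type u} [AddCommGroup A] (op : X → X → X) (φ : X → X → A) :
    X × A → X × A → X × A := fun p q => (op p.1 q.1, p.2 + φ p.1 q.1)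

/-- `(X, opX)` is isomorphic to an abelian extension `E(Y, A, φ)` of `(Y, opY)` by some nontrivial
abelian group `A` and some 2-cocycle `φ`. -/
def IsAbExt {X Y : Type u} (opX : X → X → X) (opY : Y → Y → Y) : Prop :=
  ∃ (A : Type u) (_ : AddCommGroup A) (φ : Y → Y → A), Nontrivial A ∧ IsCocycle opY φ ∧
    ∃ e : X ≃ Y × A, ∀ x x', e (opX x x') = extOp opY φ (e x) (e x')

end defs

section series

/-- a group with `n` successive central extension steps -/
def HS (G : Type u) [Group G] (n v : ℕ) : Prop :=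
  ∃ K : ℕ → Subgroup G, (∀ j, (K j).Normal) ∧ K n = ⊥ ∧
    (∀ j < n, ⁅K j, (⊤ : Subgroup G)⁆ ≤ K (j + 1)) ∧ (K 0).index ≤ v

theorem hs_zero (G : Type u) [Group G] : HS G 0 (Nat.card G) :=
  ⟨fun _ => ⊥, fun _ => inferInstance, rfl, fun j hj => by omega, by rw [Subgroup.index_bot]⟩

theorem hs_step {G H : Type u} [Group G] [Group H] (p : G →* H) (hp : Function.Surjective p)
    (hk : ∀ g, p g = 1 → ∀ k, g * k = k * g) {n v : ℕ} (h : HS H n v) : HS G (n + 1) v := by
  obtain ⟨K, hK, hn, hc, hv⟩ := h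
  refine ⟨fun j => if j ≤ n then (K j).comap p else ⊥, ?_, ?_, ?_, ?_⟩
  · intro j
    have := hK j
    show (if j ≤ n then (K j).comap p else ⊥).Normal
    split_ifs
    · exact (hK j).comap p
    · infer_instance
  · show (if n + 1 ≤ n then (K (n + 1)).comap p else ⊥) = ⊥
    rw [if_neg (by omega)]
  · intro j hj
    show ⁅(if j ≤ n then (K j).comap p else ⊥), (⊤ : Subgroup G)⁆ ≤
      (if j + 1 ≤ n then (K (j + 1)).comap p else ⊥)
    rw [if_pos (by omega)]
    rw [Subgroup.commutator_le]
    intro g hg k _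
    rw [Subgroup.mem_comap] at hg
    by_cases hj' : j + 1 ≤ n
    · rw [if_pos hj', Subgroup.mem_comap, map_commutatorElement]
      exact hc j (by omega) (Subgroup.commutator_mem_commutator hg (Subgroup.mem_top _))
    · rw [if_neg hj']
      have hjn : j = n := by omega
      rw [hjn, hn, Subgroup.mem_bot] at hg
      rw [Subgroup.mem_bot, commutatorElement_eq_one_iff_mul_comm]
      exact hk g hg k
  · show (if 0 ≤ n then (K 0).comap p else ⊥).index ≤ v
    rw [if_pos (Nat.zero_le _), Subgroup.index_comap_of_surjective _ hp]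
    exact hv

end series

section quandle

variable {X Y A : Type u} {opX : X → X → X} {opY : Y → Y → Y}

/-- right translation -/
noncomputable def R (hX : IsQuandle opX) (b : X) : Equiv.Perm X :=
  Equiv.ofBijective (fun x => opX x b) (by
    rw [Function.bijective_iff_existsUnique]
    exact hX.bij b)

theorem R_apply (hX : IsQuandle opX) (b x : X) : R hX b x = opX x b := rfl

theorem R_mem (hX : IsQuandle opX) (b : X) : R hX b ∈ Inn opX :=
  Subgroup.subset_closure ⟨b, fun x => rfl⟩

theorem inn_hom (hX : IsQuandle opX) {g : Equiv.Perm X} (hg : g ∈ Inn opX) :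
    ∀ a b, g (opX a b) = opX (g a) (g b) := by
  unfold Inn at hg
  induction hg using Subgroup.closure_induction with
  | mem g hg =>
      obtain ⟨c, hc⟩ := hg
      intro a b
      rw [hc, hc, hc, hX.dist]
  | one => intro a b; rfl
  | mul g h _ _ ihg ihh =>
      intro a b
      show g (h (opX a b)) = opX (g (h a)) (g (h b))
      rw [ihh, ihg]
  | inv g _ ih =>
      intro a b
      apply g.injective
      rw [ih]
      simp

theorem conj_R (hX : IsQuandle opX) {k : Equiv.Perm X} (hk : k ∈ Inn opX) (q x : X) :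
    k (opX (k⁻¹ x) q) = opX x (k q) := by
  rw [inn_hom hX hk]
  simp

/-- the inner automorphism group of a connected quandle is `[G,G]⟨R_q⟩` -/
theorem cyc [Finite X] (hX : IsQuandle opX) (hc : IsConnected opX) (q : X) :
    Pool.Agent.R165.Qd.Cyc (Inn opX) ⟨R hX q, R_mem hX q⟩ := by
  set z : Inn opX := ⟨R hX q, R_mem hX q⟩ with hz
  have hH : ∀ (g : Equiv.Perm X) (hg : g ∈ Inn opX),
      (⟨g, hg⟩ : Inn opX) ∈ commutator (Inn opX) ⊔ zpowers z := by
    intro g hg
    have hg' := hg
    unfold Inn at hg'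
    induction hg' using Subgroup.closure_induction with
    | mem g hgm =>
        obtain ⟨b, hb⟩ := hgm
        obtain ⟨k, hk, hkq⟩ := hc.2 q b
        let k' : Inn opX := ⟨k, hk⟩
        have h1 : (⟨g, hg⟩ : Inn opX) = ⁅k', z⁆ * z := by
          apply Subtype.ext
          apply Equiv.ext
          intro x
          have h2 : ⁅k', z⁆ * z = k' * z * k'⁻¹ := by
            rw [commutatorElement_def]; group
          rw [h2]
          show g x = k (opX (k⁻¹ x) q)
          rw [hb, conj_R hX hk, hkq]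
        rw [h1]
        refine Subgroup.mul_mem _ (Subgroup.mem_sup_left ?_)
          (Subgroup.mem_sup_right (Subgroup.mem_zpowers z))
        exact Subgroup.commutator_mem_commutator (Subgroup.mem_top _) (Subgroup.mem_top _)
    | one => exact Subgroup.one_mem _
    | mul g h hg1 hh1 ihg ihh =>
        have e : (⟨g * h, hg⟩ : Inn opX) = ⟨g, hg1⟩ * ⟨h, hh1⟩ := rfl
        rw [e]
        exact Subgroup.mul_mem _ (ihg _) (ihh _)
    | inv g hg1 ih =>
        have e : (⟨g⁻¹, hg⟩ : Inn opX) = (⟨g, hg1⟩ : Inn opX)⁻¹ := rfl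
        rw [e]
        exact Subgroup.inv_mem _ (ih _)
  intro g
  obtain ⟨a, ha, w, hw, haw⟩ := Subgroup.mem_sup_of_normal_left.mp (hH g.1 g.2)
  have hfin : IsOfFinOrder z := isOfFinOrder_of_finite z
  obtain ⟨i, hi⟩ := (hfin.mem_powers_iff_mem_zpowers).mpr hw
  refine ⟨a, ha, i, ?_⟩
  have hi' : z ^ i = w := hi
  rw [hi', haw]

theorem card_le [Finite X] (hX : IsQuandle opX) (hc : IsConnected opX) :
    Nat.card X ≤ Nat.card (commutator (Inn opX)) := by
  obtain ⟨q⟩ := hc.1
  have hcyc := cyc hX hc q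
  let f : commutator (Inn opX) → X := fun a => a.1.1 q
  have hf : Function.Surjective f := by
    intro x
    obtain ⟨g, hg, hgx⟩ := hc.2 q x
    obtain ⟨a, ha, i, hai⟩ := hcyc ⟨g, hg⟩
    refine ⟨⟨a, ha⟩, ?_⟩
    have h1 : g = a.1 * (R hX q) ^ i := congrArg Subtype.val hai
    have h2 : ∀ i : ℕ, ((R hX q) ^ i) q = q := by
      intro i
      induction i with
      | zero => rfl
      | succ i ih =>
          rw [pow_succ, Equiv.Perm.mul_apply, R_apply, hX.idem, ih]
    show a.1 q = x
    rw [← hgx, h1, Equiv.Perm.mul_apply, h2]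
  exact Nat.card_le_card_of_surjective f hf

/-- the projection of an abelian extension, abstractly -/
structure Pr (opX : X → X → X) (opY : Y → Y → Y) (π : X → Y) : Prop where
  surj : Function.Surjective π
  hom : ∀ x x', π (opX x x') = opY (π x) (π x')
  fib : ∀ x b b', π b = π b' → opX x b = opX x b'

theorem exists_down (hY : IsQuandle opY) {π : X → Y} (hπ : Pr opX opY π) {g : Equiv.Perm X}
    (hg : g ∈ Inn opX) : ∃ h : Equiv.Perm Y, h ∈ Inn opY ∧ ∀ x, π (g x) = h (π x) := by
  unfold Inn at hg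
  induction hg using Subgroup.closure_induction with
  | mem g hg =>
      obtain ⟨b, hb⟩ := hg
      refine ⟨R hY (π b), R_mem hY _, fun x => ?_⟩
      rw [hb, hπ.hom]
      rfl
  | one => exact ⟨1, Subgroup.one_mem _, fun x => rfl⟩
  | mul g g' _ _ ih ih' =>
      obtain ⟨h, h1, h2⟩ := ih
      obtain ⟨h', h1', h2'⟩ := ih'
      refine ⟨h * h', Subgroup.mul_mem _ h1 h1', fun x => ?_⟩
      rw [Equiv.Perm.mul_apply, Equiv.Perm.mul_apply, h2, h2']
  | inv g _ ih =>
      obtain ⟨h, h1, h2⟩ := ih
      refine ⟨h⁻¹, Subgroup.inv_mem _ h1, fun x => ?_⟩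
      rw [Equiv.Perm.eq_inv_iff_eq, ← h2]
      simp

theorem exists_up (hX : IsQuandle opX) {π : X → Y} (hπ : Pr opX opY π) {h : Equiv.Perm Y}
    (hh : h ∈ Inn opY) : ∃ g : Equiv.Perm X, g ∈ Inn opX ∧ ∀ x, π (g x) = h (π x) := by
  unfold Inn at hh
  induction hh using Subgroup.closure_induction with
  | mem h hh =>
      obtain ⟨c, hc⟩ := hh
      obtain ⟨b, rfl⟩ := hπ.surj c
      refine ⟨R hX b, R_mem hX _, fun x => ?_⟩
      rw [hc, ← hπ.hom]
      rfl
  | one => exact ⟨1, Subgroup.one_mem _, fun x => rfl⟩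
  | mul h h' _ _ ih ih' =>
      obtain ⟨g, h1, h2⟩ := ih
      obtain ⟨g', h1', h2'⟩ := ih'
      refine ⟨g * g', Subgroup.mul_mem _ h1 h1', fun x => ?_⟩
      rw [Equiv.Perm.mul_apply, Equiv.Perm.mul_apply, h2, h2']
  | inv h _ ih =>
      obtain ⟨g, h1, h2⟩ := ih
      refine ⟨g⁻¹, Subgroup.inv_mem _ h1, fun x => ?_⟩
      rw [Equiv.Perm.eq_inv_iff_eq, ← h2]
      simp

theorem hs_ext (hX : IsQuandle opX) (hY : IsQuandle opY) {π : X → Y} (hπ : Pr opX opY π)
    {n v : ℕ} (h : HS (Inn opY) n v) : HS (Inn opX) (n + 1) v := by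
  have hd : ∀ g : Inn opX, ∃ h : Inn opY, ∀ x, π (g.1 x) = h.1 (π x) := by
    intro g
    obtain ⟨h, h1, h2⟩ := exists_down hY hπ g.2
    exact ⟨⟨h, h1⟩, h2⟩
  choose f hf using hd
  have huniq : ∀ h h' : Inn opY, (∀ x : X, h.1 (π x) = h'.1 (π x)) → h = h' := by
    intro h h' hh
    apply Subtype.ext
    apply Equiv.ext
    intro y
    obtain ⟨x, rfl⟩ := hπ.surj y
    exact hh x
  let p : Inn opX →* Inn opY := MonoidHom.mk' f (by
    intro g g'
    apply huniq
    intro x
    rw [← hf]
    show π (g.1 (g'.1 x)) = (f g).1 ((f g').1 (π x))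
    rw [hf, hf])
  refine hs_step p ?_ ?_ h
  · intro h
    obtain ⟨g, h1, h2⟩ := exists_up hX hπ h.2
    refine ⟨⟨g, h1⟩, ?_⟩
    apply huniq
    intro x
    show (f ⟨g, h1⟩).1 (π x) = h.1 (π x)
    rw [← hf, ← h2]
  · intro g hg k
    have hg' : ∀ x, π (g.1 x) = π x := by
      intro x
      have h1 : f g = 1 := hg
      rw [hf, h1]
      rfl
    have hk : ∀ x, g.1 (k.1 x) = k.1 (g.1 x) := by
      have hk' := k.2
      unfold Inn at hk'
      generalize k.1 = k at hk'
      induction hk' using Subgroup.closure_induction with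
      | mem k hk =>
          obtain ⟨b, hb⟩ := hk
          intro x
          rw [hb, hb, inn_hom hX g.2]
          exact hπ.fib _ _ _ (hg' b)
      | one => intro x; rfl
      | mul k k' _ _ ih ih' =>
          intro x
          rw [Equiv.Perm.mul_apply, Equiv.Perm.mul_apply, ih, ih']
      | inv k _ ih =>
          intro x
          rw [Equiv.Perm.eq_inv_iff_eq, ← ih]
          simp
    apply Subtype.ext
    apply Equiv.ext
    intro x
    exact hk x

theorem pr_of_ext (h : IsAbExt opX opY) : ∃ π : X → Y, Pr opX opY π := by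
  obtain ⟨A, _, φ, hA, -, e, he⟩ := h
  refine ⟨fun x => (e x).1, ?_, ?_, ?_⟩
  · intro y
    exact ⟨e.symm (y, 0), by simp⟩
  · intro x x'
    show (e (opX x x')).1 = _
    rw [he]
    rfl
  · intro x b b' hb
    have hb' : (e b).1 = (e b').1 := hb
    apply e.injective
    rw [he, he]
    show (opY (e x).1 (e b).1, (e x).2 + φ (e x).1 (e b).1) =
      (opY (e x).1 (e b').1, (e x).2 + φ (e x).1 (e b').1)
    rw [hb']

theorem card_ext [Finite X] (h : IsAbExt opX opY) (hne : Nonempty Y) :
    2 * Nat.card Y ≤ Nat.card X := by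
  obtain ⟨A, _, φ, hA, -, e, he⟩ := h
  obtain ⟨y⟩ := hne
  have : Finite (Y × A) := Finite.of_equiv X e
  have hA' : Finite A := Finite.of_injective (fun a : A => (y, a)) (by
    intro a b hab
    exact (Prod.mk.inj hab).2)
  have h1 : 1 < Nat.card A := Finite.one_lt_card
  rw [Nat.card_congr e, Nat.card_prod, mul_comm]
  exact Nat.mul_le_mul_left _ h1

end quandle

/-- A tower `Q 0, Q 1, …, Q n` of finite connected quandles in which every `Q (i+1)`, `i < n`, is
isomorphic to an abelian extension of `Q i` by a nontrivial abelian group. -/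
structure IsTower (n : ℕ) (Q : ℕ → Type u) (op : ∀ i, Q i → Q i → Q i) : Prop where
  finite : ∀ i ≤ n, Finite (Q i)
  quandle : ∀ i ≤ n, IsQuandle (op i)
  connected : ∀ i ≤ n, IsConnected (op i)
  ext : ∀ i < n, IsAbExt (op (i + 1)) (op i)

theorem tower_bound (n : ℕ) (Q : ℕ → Type u) (op : ∀ i, Q i → Q i → Q i) (h : IsTower n Q op) :
    2 ^ n ≤ Nat.card (Q n) ∧
    Nat.card (Q n) ≤ (Nat.card (Inn (op 0))) ^ (Nat.card (Inn (op 0)) * (Nat.card (Inn (op 0))) ^ 2
      + 1) * Nat.card (Inn (op 0)) := by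
  set v := Nat.card (Inn (op 0)) with hv
  have h1 : ∀ i ≤ n, HS (Inn (op i)) i v ∧ 2 ^ i ≤ Nat.card (Q i) := by
    intro i
    induction i with
    | zero =>
        intro _
        refine ⟨hs_zero _, ?_⟩
        have := h.finite 0 (Nat.zero_le _)
        have := (h.connected 0 (Nat.zero_le _)).1
        rw [pow_zero]
        exact Nat.card_pos
    | succ i ih =>
        intro hi
        obtain ⟨ih1, ih2⟩ := ih (by omega)
        have hex := h.ext i (by omega)
        obtain ⟨π, hπ⟩ := pr_of_ext hex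
        refine ⟨hs_ext (h.quandle _ hi) (h.quandle i (by omega)) hπ ih1, ?_⟩
        have := h.finite _ hi
        have h2 := card_ext hex (h.connected i (by omega)).1
        rw [pow_succ]
        omega
  obtain ⟨⟨K, hK, hn, hc, hv'⟩, h2⟩ := h1 n le_rfl
  refine ⟨h2, ?_⟩
  have hfin := h.finite n le_rfl
  have hX := h.quandle n le_rfl
  have hcon := h.connected n le_rfl
  obtain ⟨q⟩ := hcon.1
  exact (card_le hX hcon).trans
    (Pool.Agent.R165.Qd.bound (cyc hX hcon q) K hK n hn hc v hv')

/-- **No infinite tower.** (1) There is no infinite sequence of finite connected quandles each of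
which is isomorphic to an abelian extension of the preceding one by a nontrivial abelian group.
(2) Quantitative form: for every finite tower `Q n → … → Q 0`, `2 ^ n ≤ |Q n| ≤ v ^ (v ^ 3 + 1) * v`
with `v = |Inn (Q 0)|`; so the height is bounded in terms of the bottom quandle. -/
theorem result :
    (¬ ∃ (Q : ℕ → Type u) (op : ∀ n, Q n → Q n → Q n), (∀ n, Finite (Q n)) ∧
      (∀ n, IsQuandle (op n)) ∧ (∀ n, IsConnected (op n)) ∧
      ∀ n, IsAbExt (op (n + 1)) (op n)) ∧
    ∀ (n : ℕ) (Q : ℕ → Type u) (op : ∀ i, Q i → Q i → Q i), IsTower n Q op →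
      2 ^ n ≤ Nat.card (Q n) ∧ Nat.card (Q n) ≤
        (Nat.card (Inn (op 0))) ^ ((Nat.card (Inn (op 0))) ^ 3 + 1) * Nat.card (Inn (op 0)) := by
  have key : ∀ (n : ℕ) (Q : ℕ → Type u) (op : ∀ i, Q i → Q i → Q i), IsTower n Q op →
      2 ^ n ≤ Nat.card (Q n) ∧ Nat.card (Q n) ≤
        (Nat.card (Inn (op 0))) ^ ((Nat.card (Inn (op 0))) ^ 3 + 1) * Nat.card (Inn (op 0)) := by
    intro n Q op h
    have h1 := tower_bound n Q op h
    have e : Nat.card (Inn (op 0)) * (Nat.card (Inn (op 0))) ^ 2 = (Nat.card (Inn (op 0))) ^ 3 := by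
      ring
    rw [e] at h1
    exact h1
  refine ⟨?_, key⟩
  rintro ⟨Q, op, h1, h2, h3, h4⟩
  set b := (Nat.card (Inn (op 0))) ^ ((Nat.card (Inn (op 0))) ^ 3 + 1) * Nat.card (Inn (op 0))
  have h5 := key b Q op ⟨fun i _ => h1 i, fun i _ => h2 i, fun i _ => h3 i, fun i _ => h4 i⟩
  have h6 : b < 2 ^ b := Nat.lt_two_pow_self
  omega

end Pool.Agent.Results.MP_caf75b_al.NoInfiniteTower
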